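import Mathlib

set_option autoImplicit false

namespace Pool.Agent.Results.MP_4ed7e0_lc.AdditivePurity

open Polynomial

variable {K L : Type} [Field K] [Field L] [Algebra K L]

/-- The value at `f` of the additive polynomial with coefficient sequence `s`,
that is `∑ s_k f^(p^k)`. -/
noncomputable def ev (p : ℕ) (s : K[X]) (f : L) : L :=
  s.sum fun k a => algebraMap K L a * f ^ p ^ k

/-- Composition of coefficient sequences: `(a F^k) (b F^l) = a b^(p^k) F^(k+l)`. -/
noncomputable def cmp (p : ℕ) (S T : K[X]) : K[X] :=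
  S.sum fun k a => T.sum fun l b => monomial (k + l) (a * b ^ p ^ k)

lemma ev_zero (p : ℕ) (f : L) : ev p (0 : K[X]) f = 0 := by simp [ev]

lemma ev_add (p : ℕ) (s t : K[X]) (f : L) : ev p (s + t) f = ev p s f + ev p t f := by
  unfold ev
  rw [Polynomial.sum_add_index]
  · intro i; simp
  · intro i a b; simp [add_mul]

lemma ev_sum {ι : Type*} (p : ℕ) (S : Finset ι) (s : ι → K[X]) (f : L) :
    ev p (∑ i ∈ S, s i) f = ∑ i ∈ S, ev p (s i) f := by
  classical
  induction S using Finset.induction_on with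
  | empty => simp [ev_zero]
  | insert a S ha ih => rw [Finset.sum_insert ha, Finset.sum_insert ha, ev_add, ih]

lemma ev_monomial (p k : ℕ) (a : K) (f : L) :
    ev p (monomial k a) f = algebraMap K L a * f ^ p ^ k := by
  unfold ev
  rw [Polynomial.sum_monomial_index]
  simp

lemma ev_map_add (p : ℕ) [Fact p.Prime] [CharP L p] (s : K[X]) (f g : L) :
    ev p s (f + g) = ev p s f + ev p s g := by
  unfold ev Polynomial.sum
  rw [← Finset.sum_add_distrib]
  refine Finset.sum_congr rfl fun k _ => ?_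
  show algebraMap K L (s.coeff k) * (f + g) ^ p ^ k = algebraMap K L (s.coeff k) * f ^ p ^ k
    + algebraMap K L (s.coeff k) * g ^ p ^ k
  rw [add_pow_char_pow, mul_add]

lemma ev_map_zero (p : ℕ) [Fact p.Prime] (s : K[X]) : ev p s (0 : L) = 0 := by
  unfold ev Polynomial.sum
  refine Finset.sum_eq_zero fun k _ => ?_
  have : p ^ k ≠ 0 := pow_ne_zero _ (Fact.out : p.Prime).ne_zero
  show algebraMap K L (s.coeff k) * (0 : L) ^ p ^ k = 0
  rw [zero_pow this, mul_zero]

lemma ev_map_neg (p : ℕ) [Fact p.Prime] [CharP L p] (s : K[X]) (f : L) :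
    ev p s (-f) = -ev p s f := by
  have h := ev_map_add p s f (-f)
  rw [add_neg_cancel, ev_map_zero] at h
  exact (neg_eq_of_add_eq_zero_right h.symm).symm

lemma ev_map_sub (p : ℕ) [Fact p.Prime] [CharP L p] (s : K[X]) (f g : L) :
    ev p s (f - g) = ev p s f - ev p s g := by
  rw [sub_eq_add_neg, ev_map_add, ev_map_neg, sub_eq_add_neg]

lemma ev_map_sum {ι : Type*} (p : ℕ) [Fact p.Prime] [CharP L p] (s : K[X]) (S : Finset ι)
    (f : ι → L) : ev p s (∑ i ∈ S, f i) = ∑ i ∈ S, ev p s (f i) := by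
  classical
  induction S using Finset.induction_on with
  | empty => simp [ev_map_zero]
  | insert a S ha ih => rw [Finset.sum_insert ha, Finset.sum_insert ha, ev_map_add, ih]

lemma ev_cmp (p : ℕ) [Fact p.Prime] [CharP L p] (S T : K[X]) (f : L) :
    ev p (cmp p S T) f = ev p S (ev p T f) := by
  have h1 : cmp p S T = ∑ k ∈ S.support, ∑ l ∈ T.support,
      monomial (k + l) (S.coeff k * (T.coeff l) ^ p ^ k) := rfl
  rw [h1, ev_sum]
  have h2 : ev p S (ev p T f) = ∑ k ∈ S.support, algebraMap K L (S.coeff k) * (ev p T f) ^ p ^ k :=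
    rfl
  rw [h2]
  refine Finset.sum_congr rfl fun k _ => ?_
  have h3 : ev p T f = ∑ l ∈ T.support, algebraMap K L (T.coeff l) * f ^ p ^ l := rfl
  rw [ev_sum, h3, sum_pow_char_pow, Finset.mul_sum]
  refine Finset.sum_congr rfl fun l _ => ?_
  rw [ev_monomial, map_mul, map_pow, mul_pow, ← pow_mul, mul_assoc, add_comm k l, pow_add]

lemma natDegree_cmp_monomial (p : ℕ) (S : K[X]) (e : ℕ) (a : K) :
    (cmp p S (monomial e a)).natDegree ≤ S.natDegree + e := by
  have h1 : cmp p S (monomial e a) = ∑ k ∈ S.support,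
      (monomial e a : K[X]).sum fun l b => monomial (k + l) (S.coeff k * b ^ p ^ k) := rfl
  rw [h1]
  refine Polynomial.natDegree_sum_le_of_forall_le _ _ fun k hk => ?_
  have hk' : k ≤ S.natDegree := Polynomial.le_natDegree_of_mem_supp k hk
  have h2 : (monomial e a : K[X]).sum (fun l b => monomial (k + l) (S.coeff k * b ^ p ^ k))
      = ∑ l ∈ (monomial e a : K[X]).support,
        monomial (k + l) (S.coeff k * ((monomial e a : K[X]).coeff l) ^ p ^ k) := rfl
  rw [h2]
  refine Polynomial.natDegree_sum_le_of_forall_le _ _ fun l hl => ?_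
  have hl' : l = e := by
    by_contra hne
    rw [Polynomial.mem_support_iff, Polynomial.coeff_monomial, if_neg (Ne.symm hne)] at hl
    exact hl rfl
  refine le_trans (Polynomial.natDegree_monomial_le _) ?_
  omega

section val

variable (O : ValuationSubring L) (hK : ∀ a : K, algebraMap K L a ∈ O)

include hK in
lemma val_const {a : K} (ha : a ≠ 0) : O.valuation (algebraMap K L a) = 1 := by
  have h1 : O.valuation (algebraMap K L a) ≤ 1 := (O.valuation_le_one_iff _).2 (hK a)
  have h2 : O.valuation (algebraMap K L a⁻¹) ≤ 1 := (O.valuation_le_one_iff _).2 (hK a⁻¹)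
  have h3 : O.valuation (algebraMap K L a) * O.valuation (algebraMap K L a⁻¹) = 1 := by
    rw [← map_mul, ← map_mul, mul_inv_cancel₀ ha, map_one, map_one]
  refine le_antisymm h1 ?_
  calc (1 : O.ValueGroup) = O.valuation (algebraMap K L a) * O.valuation (algebraMap K L a⁻¹) :=
        h3.symm
    _ ≤ O.valuation (algebraMap K L a) * 1 := by gcongr
    _ = _ := mul_one _

include hK in
lemma ev_mem {p : ℕ} (s : K[X]) {f : L} (hf : f ∈ O) : ev p s f ∈ O := by
  unfold ev Polynomial.sum
  exact O.toSubring.sum_mem fun k _ => O.mul_mem _ _ (hK _) (O.toSubring.pow_mem hf _)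

include hK in
lemma val_ev {p : ℕ} [Fact p.Prime] {s : K[X]} (hs : s ≠ 0) {f : L} (hf : f ∉ O) :
    O.valuation (ev p s f) = O.valuation f ^ p ^ s.natDegree := by
  have hp : 1 < p := (Fact.out : p.Prime).one_lt
  have hf1 : 1 < O.valuation f := by
    rw [← not_le, O.valuation_le_one_iff]; exact hf
  have hdec : s = s.eraseLead + monomial s.natDegree s.leadingCoeff :=
    (Polynomial.eraseLead_add_monomial_natDegree_leadingCoeff s).symm
  have hlead : s.leadingCoeff ≠ 0 := Polynomial.leadingCoeff_ne_zero.2 hs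
  have htop : O.valuation (ev p (monomial s.natDegree s.leadingCoeff : K[X]) f)
      = O.valuation f ^ p ^ s.natDegree := by
    rw [ev_monomial, map_mul, map_pow, val_const O hK hlead, one_mul]
  have hlow : O.valuation (ev p s.eraseLead f) < O.valuation f ^ p ^ s.natDegree := by
    unfold ev Polynomial.sum
    refine Valuation.map_sum_lt _ ?_ ?_
    · exact (pow_pos (lt_trans zero_lt_one hf1) _).ne'
    · intro k hk
      have hk1 : k < s.natDegree := Polynomial.lt_natDegree_of_mem_eraseLead_support hk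
      rw [map_mul, map_pow]
      calc O.valuation (algebraMap K L (s.eraseLead.coeff k)) * O.valuation f ^ p ^ k
          ≤ 1 * O.valuation f ^ p ^ k := by
            gcongr
            exact (O.valuation_le_one_iff _).2 (hK _)
        _ = O.valuation f ^ p ^ k := one_mul _
        _ < O.valuation f ^ p ^ s.natDegree :=
            pow_lt_pow_right₀ hf1 (Nat.pow_lt_pow_right hp hk1)
  conv_lhs => rw [hdec]
  rw [ev_add, Valuation.map_add_eq_of_lt_right _ (by rw [htop]; exact hlow), htop]

end val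

/-- `x` lies, modulo `O`, in the `K[F]`-span of the family `f`. -/
def Gen (p : ℕ) (O : ValuationSubring L) {n r : ℕ} (x : Fin n → L) (f : Fin r → L) : Prop :=
  ∀ j, ∃ C : Fin r → K[X], x j - ∑ i, ev p (C i) (f i) ∈ O

/-- The elementary transformation `f_i₁ ↦ f_i₁ - a f_i₂^(p^e)` does not change sums. -/
lemma sum_transform (p : ℕ) [Fact p.Prime] [CharP L p] {r : ℕ} (f : Fin r → L)
    (T : Fin r → K[X]) {i₁ i₂ : Fin r} (h12 : i₂ ≠ i₁) (e : ℕ) (a : K) :
    ∑ i, ev p (Function.update T i₂ (T i₂ + cmp p (T i₁) (monomial e a)) i)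
        (Function.update f i₁ (f i₁ - algebraMap K L a * f i₂ ^ p ^ e) i)
      = ∑ i, ev p (T i) (f i) := by
  classical
  rw [← sub_eq_zero, ← Finset.sum_sub_distrib]
  rw [Finset.sum_eq_add i₁ i₂ h12.symm]
  · rw [Function.update_of_ne h12.symm, Function.update_self, Function.update_self,
      Function.update_of_ne h12, ev_add, ev_cmp, ev_monomial, ev_map_sub]
    ring
  · intro i _ hi
    rw [Function.update_of_ne hi.2, Function.update_of_ne hi.1, sub_self]
  · intro h; exact absurd (Finset.mem_univ _) h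
  · intro h; exact absurd (Finset.mem_univ _) h

lemma Gen_update (p : ℕ) [Fact p.Prime] [CharP L p] {O : ValuationSubring L} {n r : ℕ}
    {x : Fin n → L} {f : Fin r → L} (h : Gen (K := K) p O x f)
    {i₁ i₂ : Fin r} (h12 : i₂ ≠ i₁) (e : ℕ) (a : K) :
    Gen (K := K) p O x
      (Function.update f i₁ (f i₁ - algebraMap K L a * f i₂ ^ p ^ e)) := by
  intro j
  obtain ⟨C, hC⟩ := h j
  refine ⟨Function.update C i₂ (C i₂ + cmp p (C i₁) (monomial e a)), ?_⟩
  rw [sum_transform p f C h12 e a]
  exact hC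

lemma Gen_drop (p : ℕ) {O : ValuationSubring L} (hK : ∀ a : K, algebraMap K L a ∈ O) {n r : ℕ}
    {x : Fin n → L} {f : Fin (r + 1) → L} (h : Gen (K := K) p O x f)
    {i₀ : Fin (r + 1)} (hi : f i₀ ∈ O) :
    Gen (K := K) p O x (fun i => f (i₀.succAbove i)) := by
  intro j
  obtain ⟨C, hC⟩ := h j
  refine ⟨fun i => C (i₀.succAbove i), ?_⟩
  have h1 : x j - ∑ i, ev p (C (i₀.succAbove i)) (f (i₀.succAbove i))
      = (x j - ∑ i, ev p (C i) (f i)) + ev p (C i₀) (f i₀) := by
    rw [Fin.sum_univ_succAbove (fun i => ev p (C i) (f i)) i₀]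
    ring
  rw [h1]
  exact O.add_mem _ _ hC (ev_mem O hK _ hi)

/-- weight of an operator: `0` for zero, `1 + degree` otherwise. -/
noncomputable def wt (T : K[X]) : ℕ := by
  classical
  exact if T = 0 then 0 else T.natDegree + 1

lemma wt_of_ne {T : K[X]} (h : T ≠ 0) : wt T = T.natDegree + 1 := by
  unfold wt; rw [if_neg h]

lemma wt_zero : wt (0 : K[X]) = 0 := by unfold wt; rw [if_pos rfl]

lemma wt_le {T : K[X]} {d : ℕ} (h : T.natDegree ≤ d) : wt T ≤ d + 1 := by
  unfold wt
  split_ifs <;> omega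

open Classical in
/-- In a minimal generating family no nontrivial relation modulo `O` holds. -/
lemma no_relation (p : ℕ) [Fact p.Prime] [CharP L p] (O : ValuationSubring L)
    (hK : ∀ a : K, algebraMap K L a ∈ O)
    (hres : ∀ x ∈ O, ∃ a : K, O.valuation (x - algebraMap K L a) < 1)
    {n r : ℕ} (x : Fin n → L)
    (hmin : ∀ r' < r, ∀ f' : Fin r' → L, ¬ Gen (K := K) p O x f') :
    ∀ (N : ℕ) (f : Fin r → L), Gen (K := K) p O x f → ∀ T : Fin r → K[X], T ≠ 0 →
      (∑ i, wt (T i)) * (r + 1) + (Finset.univ.filter (fun i => T i ≠ 0 ∧ ∀ j, T j ≠ 0 →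
        O.valuation (f j) ^ p ^ (T j).natDegree ≤
          O.valuation (f i) ^ p ^ (T i).natDegree)).card ≤ N →
      ∑ i, ev p (T i) (f i) ∉ O := by
  intro N
  induction N using Nat.strong_induction_on with
  | _ N IH =>
  intro f hf T hT hN hsum
  have hp : 1 < p := (Fact.out : p.Prime).one_lt
  -- every `f i` lies outside `O`
  have hout : ∀ i, f i ∉ O := by
    intro i hi
    cases r with
    | zero => exact i.elim0
    | succ r' => exact hmin r' (Nat.lt_succ_self _) _ (Gen_drop p hK hf hi)
  have hgt : ∀ i, 1 < O.valuation (f i) := fun i => by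
    rw [← not_le, O.valuation_le_one_iff]; exact hout i
  set A : Fin r → O.ValueGroup := fun i => O.valuation (f i) ^ p ^ (T i).natDegree with hA
  have hA1 : ∀ i, 1 < A i := fun i =>
    one_lt_pow₀ (hgt i) (pow_ne_zero _ (by omega))
  set I : Finset (Fin r) := Finset.univ.filter (fun i => T i ≠ 0 ∧ ∀ j, T j ≠ 0 → A j ≤ A i)
    with hI
  have hmemI : ∀ i, i ∈ I ↔ (T i ≠ 0 ∧ ∀ j, T j ≠ 0 → A j ≤ A i) := fun i => by
    rw [hI, Finset.mem_filter]; simp
  -- `I` is nonempty
  have hne : ∃ i, T i ≠ 0 := by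
    by_contra hcon
    push Not at hcon
    exact hT (funext hcon)
  have hInon : I.Nonempty := by
    obtain ⟨i₀, hi₀⟩ := hne
    obtain ⟨m, hm, hmax⟩ := Finset.exists_max_image (Finset.univ.filter fun i => T i ≠ 0) A
      ⟨i₀, by simp [hi₀]⟩
    refine ⟨m, (hmemI m).2 ⟨(Finset.mem_filter.1 hm).2, fun j hj => hmax j (by simp [hj])⟩⟩
  -- `I` has at least two elements
  have hcard : 1 < I.card := by
    by_contra hle
    obtain ⟨i₀, hi₀⟩ := hInon
    have hone : ∀ i ∈ I, i = i₀ := fun i hi =>
      Finset.card_le_one.1 (not_lt.1 hle) i hi i₀ hi₀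
    have hval : O.valuation (∑ i, ev p (T i) (f i)) = A i₀ := by
      rw [← Finset.add_sum_erase _ _ (Finset.mem_univ i₀)]
      have htop : O.valuation (ev p (T i₀) (f i₀)) = A i₀ :=
        val_ev O hK ((hmemI i₀).1 hi₀).1 (hout i₀)
      rw [Valuation.map_add_eq_of_lt_left, htop]
      rw [htop]
      refine Valuation.map_sum_lt _ (ne_of_gt (lt_trans zero_lt_one (hA1 i₀))) ?_
      intro i hi
      have hii : i ≠ i₀ := (Finset.mem_erase.1 hi).1
      by_cases hTi : T i = 0
      · rw [hTi, ev_zero, map_zero]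
        exact lt_trans zero_lt_one (hA1 i₀)
      · rw [val_ev O hK hTi (hout i)]
        by_contra hnot
        have hge : A i₀ ≤ A i := not_lt.1 hnot
        exact hii (hone i ((hmemI i).2 ⟨hTi, fun j hj =>
          le_trans (((hmemI i₀).1 hi₀).2 j hj) hge⟩))
    have : O.valuation (∑ i, ev p (T i) (f i)) ≤ 1 := (O.valuation_le_one_iff _).2 hsum
    rw [hval] at this
    exact absurd this (not_le.2 (hA1 i₀))
  -- choose the two indices
  obtain ⟨i₁, hi₁, hmin1⟩ := Finset.exists_min_image I (fun i => (T i).natDegree) hInon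
  obtain ⟨i₂, hi₂, h12⟩ := Finset.exists_mem_ne hcard i₁
  have hT1 := ((hmemI i₁).1 hi₁).1
  have hT2 := ((hmemI i₂).1 hi₂).1
  have hd : (T i₁).natDegree ≤ (T i₂).natDegree := hmin1 i₂ hi₂
  obtain ⟨e, he⟩ := Nat.exists_eq_add_of_le hd
  have hAeq : A i₁ = A i₂ :=
    le_antisymm (((hmemI i₂).1 hi₂).2 i₁ hT1) (((hmemI i₁).1 hi₁).2 i₂ hT2)
  have hveq : O.valuation (f i₁) = O.valuation (f i₂ ^ p ^ e) := by
    have h1 : O.valuation (f i₁) ^ p ^ (T i₁).natDegree
        = (O.valuation (f i₂ ^ p ^ e)) ^ p ^ (T i₁).natDegree := by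
      have : A i₁ = A i₂ := hAeq
      simp only [hA] at this
      rw [this, map_pow, ← pow_mul, he, pow_add, mul_comm]
    exact (pow_left_inj₀ zero_le zero_le (pow_ne_zero _ (by omega))).1 h1
  have hf2ne : f i₂ ^ p ^ e ≠ 0 := by
    intro h0
    rw [h0, map_zero] at hveq
    exact absurd hveq (ne_of_gt (lt_trans zero_lt_one (hgt i₁)))
  have hv2ne : O.valuation (f i₂ ^ p ^ e) ≠ 0 := (Valuation.ne_zero_iff _).2 hf2ne
  obtain ⟨a, ha⟩ := hres (f i₁ / f i₂ ^ p ^ e) ((O.valuation_le_one_iff _).1 (by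
    rw [map_div₀, hveq, div_self hv2ne]))
  set g : L := f i₁ - algebraMap K L a * f i₂ ^ p ^ e with hg
  have hgval : O.valuation g < O.valuation (f i₁) := by
    have h1 : g = (f i₁ / f i₂ ^ p ^ e - algebraMap K L a) * f i₂ ^ p ^ e := by
      rw [hg, sub_mul, div_mul_cancel₀ _ hf2ne]
    rw [h1, map_mul, hveq]
    calc O.valuation (f i₁ / f i₂ ^ p ^ e - algebraMap K L a) * O.valuation (f i₂ ^ p ^ e)
        < 1 * O.valuation (f i₂ ^ p ^ e) := by
          exact mul_lt_mul_of_pos_right ha (zero_lt_iff.2 hv2ne)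
      _ = _ := one_mul _
  set f' : Fin r → L := Function.update f i₁ g with hf'
  set T' : Fin r → K[X] := Function.update T i₂ (T i₂ + cmp p (T i₁) (monomial e a)) with hT'
  have hsum' : ∑ i, ev p (T' i) (f' i) ∈ O := by
    rw [hT', hf', hg, sum_transform p f T h12 e a]
    exact hsum
  have hgen' : Gen (K := K) p O x f' := Gen_update p hf h12 e a
  have hT'1 : T' i₁ = T i₁ := by rw [hT', Function.update_of_ne h12.symm]
  have hT'ne : T' ≠ 0 := by
    intro h0
    have := congrFun h0 i₁
    rw [hT'1] at this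
    exact hT1 this
  have hdeg2 : (T' i₂).natDegree ≤ (T i₂).natDegree := by
    rw [hT', Function.update_self]
    refine le_trans (Polynomial.natDegree_add_le _ _) (max_le le_rfl ?_)
    refine le_trans (natDegree_cmp_monomial p _ _ _) (le_of_eq he.symm)
  have hwt2 : wt (T' i₂) ≤ wt (T i₂) := by
    rw [wt_of_ne hT2]
    exact wt_le hdeg2
  have hother : ∀ i, i ≠ i₂ → T' i = T i := fun i hi => by
    rw [hT', Function.update_of_ne hi]
  have hwt : ∀ i, wt (T' i) ≤ wt (T i) := fun i => by
    by_cases hi : i = i₂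
    · rw [hi]; exact hwt2
    · rw [hother i hi]
  have hwsum : ∑ i, wt (T' i) ≤ ∑ i, wt (T i) := Finset.sum_le_sum fun i _ => hwt i
  set I' : Finset (Fin r) := Finset.univ.filter (fun i => T' i ≠ 0 ∧ ∀ j, T' j ≠ 0 →
        O.valuation (f' j) ^ p ^ (T' j).natDegree ≤
          O.valuation (f' i) ^ p ^ (T' i).natDegree) with hI'
  have hI'r : I'.card ≤ r := le_trans (Finset.card_le_univ _) (by simp)
  rcases lt_or_eq_of_le hwsum with hlt | heq
  · -- the weight drops
    refine IH ((∑ i, wt (T' i)) * (r + 1) + I'.card) ?_ f' hgen' T' hT'ne le_rfl hsum'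
    have h1 : (∑ i, wt (T' i)) + 1 ≤ ∑ i, wt (T i) := hlt
    have h2 : ((∑ i, wt (T' i)) + 1) * (r + 1) ≤ (∑ i, wt (T i)) * (r + 1) :=
      Nat.mul_le_mul_right _ h1
    have h3 : 0 < I.card := by omega
    have h4 : ((∑ i, wt (T' i)) + 1) * (r + 1) = (∑ i, wt (T' i)) * (r + 1) + (r + 1) := by ring
    omega
  · -- the weight stays and the leading set shrinks
    have hwt2' : wt (T' i₂) = wt (T i₂) := by
      by_contra hne2
      have : wt (T' i₂) < wt (T i₂) := lt_of_le_of_ne hwt2 hne2
      have := Finset.sum_lt_sum (fun i _ => hwt i) ⟨i₂, Finset.mem_univ _, this⟩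
      omega
    have hT'2 : T' i₂ ≠ 0 := by
      intro h0
      rw [h0, wt_zero, wt_of_ne hT2] at hwt2'
      omega
    have hdeg2' : (T' i₂).natDegree = (T i₂).natDegree := by
      rw [wt_of_ne hT'2, wt_of_ne hT2] at hwt2'
      omega
    have hT'iff : ∀ i, T' i ≠ 0 ↔ T i ≠ 0 := fun i => by
      by_cases hi : i = i₂
      · rw [hi]; exact ⟨fun _ => hT2, fun _ => hT'2⟩
      · rw [hother i hi]
    have hdeg' : ∀ i, (T' i).natDegree = (T i).natDegree := fun i => by
      by_cases hi : i = i₂
      · rw [hi]; exact hdeg2'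
      · rw [hother i hi]
    have hf'1 : f' i₁ = g := by rw [hf', Function.update_self]
    have hf'o : ∀ i, i ≠ i₁ → f' i = f i := fun i hi => by
      rw [hf', Function.update_of_ne hi]
    have hsub : I' ⊆ I.erase i₁ := by
      intro i hi
      have hi' := (Finset.mem_filter.1 hi).2
      have hne1 : i ≠ i₁ := by
        intro h0
        have h1 := hi'.2 i₂ hT'2
        rw [h0, hf'1, hf'o i₂ h12, hdeg' i₂, hdeg' i₁] at h1
        have h2 : O.valuation g ^ p ^ (T i₁).natDegree < A i₁ :=
          pow_lt_pow_left₀ hgval zero_le (pow_ne_zero _ (by omega))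
        have h3 : A i₂ ≤ O.valuation g ^ p ^ (T i₁).natDegree := h1
        rw [← hAeq] at h3
        exact absurd h2 (not_lt.2 h3)
      refine Finset.mem_erase.2 ⟨hne1, (hmemI i).2 ⟨(hT'iff i).1 hi'.1, fun j hj => ?_⟩⟩
      have h1 := hi'.2 i₂ hT'2
      rw [hf'o i₂ h12, hf'o i hne1, hdeg' i₂, hdeg' i] at h1
      exact le_trans (((hmemI i₂).1 hi₂).2 j hj) h1
    have hcard' : I'.card < I.card := by
      refine lt_of_le_of_lt (Finset.card_le_card hsub) ?_
      exact Finset.card_erase_lt_of_mem hi₁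
    refine IH ((∑ i, wt (T' i)) * (r + 1) + I'.card) ?_ f' hgen' T' hT'ne le_rfl hsum'
    rw [heq]
    omega

/-- Solvability in `L` of a system of additive polynomials over `K` with right-hand sides in `O`
implies solvability in `O`. -/
lemma solvable_in_O (p : ℕ) [Fact p.Prime] [CharP L p] (O : ValuationSubring L)
    (hK : ∀ a : K, algebraMap K L a ∈ O)
    (hres : ∀ x ∈ O, ∃ a : K, O.valuation (x - algebraMap K L a) < 1)
    {m n : ℕ} (A : Fin m → Fin n → K[X]) (c : Fin m → L) (hc : ∀ i, c i ∈ O)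
    (x : Fin n → L) (hx : ∀ i, ∑ j, ev p (A i j) (x j) = c i) :
    ∃ o : Fin n → L, (∀ j, o j ∈ O) ∧ ∀ i, ∑ j, ev p (A i j) (o j) = c i := by
  classical
  have hex : ∃ r, ∃ f : Fin r → L, Gen (K := K) p O x f := by
    refine ⟨n, x, fun j => ⟨fun i => if i = j then monomial 0 1 else 0, ?_⟩⟩
    have h1 : ∑ i, ev p (if i = j then (monomial 0 1 : K[X]) else 0) (x i) = x j := by
      rw [Finset.sum_eq_single j]
      · rw [if_pos rfl, ev_monomial]; simp
      · intro i _ hi; rw [if_neg hi, ev_zero]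
      · intro h; exact absurd (Finset.mem_univ _) h
    rw [h1, sub_self]
    exact O.zero_mem
  set r := Nat.find hex with hr
  obtain ⟨f, hf⟩ := Nat.find_spec hex
  have hmin : ∀ r' < r, ∀ f' : Fin r' → L, ¬ Gen (K := K) p O x f' := fun r' hr' f' hf' =>
    Nat.find_min hex hr' ⟨f', hf'⟩
  choose C hC using hf
  refine ⟨fun j => x j - ∑ i, ev p (C j i) (f i), hC, ?_⟩
  intro k
  set D : Fin r → K[X] := fun i => ∑ j, cmp p (A k j) (C j i) with hD
  have hsplit : ∑ j, ev p (A k j) (x j - ∑ i, ev p (C j i) (f i))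
      = c k - ∑ i, ev p (D i) (f i) := by
    have h1 : ∀ j, ev p (A k j) (x j - ∑ i, ev p (C j i) (f i))
        = ev p (A k j) (x j) - ∑ i, ev p (cmp p (A k j) (C j i)) (f i) := by
      intro j
      rw [ev_map_sub, ev_map_sum]
      congr 1
      refine Finset.sum_congr rfl fun i _ => ?_
      rw [ev_cmp]
    rw [Finset.sum_congr rfl fun j _ => h1 j, Finset.sum_sub_distrib, hx k, Finset.sum_comm]
    congr 1
    refine Finset.sum_congr rfl fun i _ => ?_
    rw [hD, ev_sum]
  have hmem : ∑ i, ev p (D i) (f i) ∈ O := by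
    have h1 : ∑ j, ev p (A k j) (x j - ∑ i, ev p (C j i) (f i)) ∈ O :=
      O.toSubring.sum_mem fun j _ => ev_mem O hK _ (hC j)
    have h2 : ∑ i, ev p (D i) (f i)
        = c k - ∑ j, ev p (A k j) (x j - ∑ i, ev p (C j i) (f i)) := by
      rw [hsplit]; ring
    rw [h2]
    exact O.toSubring.sub_mem (hc k) h1
  have hD0 : D = 0 := by
    by_contra hne
    exact no_relation p O hK hres x hmin _ f (fun j => ⟨C j, hC j⟩) D hne le_rfl hmem
  rw [hsplit, hD0]
  simp [ev_zero]

/-- **Purity for additive polynomials.** Let `K` be a field of characteristic `p` and `L` an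
extension field with a valuation ring `O` containing `K` whose residue field is `K`
(a `K`-rational place). Let `y` be a point of `L^k` with coordinates in `O` and with residue
point `b` in `K^k`, and let `c_i` be polynomials over `K` in `k` variables. If the system
`∑_j ∑_k a_{ijk} x_j^(p^k) = c_i(y)` with coefficients in `K` has a solution `x` in `L`, then
the system `∑_j ∑_k a_{ijk} x_j^(p^k) = c_i(b)` has a solution in `K`. -/
theorem result (p : ℕ) [Fact p.Prime] (K : Type) [Field K] [CharP K p]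
    (L : Type) [Field L] [Algebra K L] (O : ValuationSubring L)
    (hK : ∀ a : K, algebraMap K L a ∈ O)
    (hres : ∀ x ∈ O, ∃ a : K, O.valuation (x - algebraMap K L a) < 1)
    (m n d l : ℕ) (a : Fin m → Fin n → Fin d → K) (c : Fin m → MvPolynomial (Fin l) K)
    (y : Fin l → L) (b : Fin l → K) (hy : ∀ j, O.valuation (y j - algebraMap K L (b j)) < 1)
    (h : ∃ x : Fin n → L, ∀ i, ∑ j, ∑ k : Fin d, algebraMap K L (a i j k) * x j ^ p ^ (k : ℕ)
      = MvPolynomial.aeval y (c i)) :
    ∃ x : Fin n → K, ∀ i, ∑ j, ∑ k : Fin d, a i j k * x j ^ p ^ (k : ℕ)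
      = MvPolynomial.eval b (c i) := by
  classical
  have : CharP L p := charP_of_injective_algebraMap (algebraMap K L).injective p
  obtain ⟨x, hx⟩ := h
  set A : Fin m → Fin n → K[X] := fun i j => ∑ k : Fin d, monomial (k : ℕ) (a i j k) with hA
  have hev : ∀ (y : Fin n → L) i j, ev p (A i j) (y j)
      = ∑ k : Fin d, algebraMap K L (a i j k) * y j ^ p ^ (k : ℕ) := by
    intro y i j
    rw [hA, ev_sum]
    refine Finset.sum_congr rfl fun k _ => ?_
    rw [ev_monomial]
  -- the coordinates of `y` lie in `O`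
  have hyO : ∀ j, y j ∈ O := fun j => by
    have h1 : y j = (y j - algebraMap K L (b j)) + algebraMap K L (b j) := by ring
    rw [h1]
    exact O.add_mem _ _ ((O.valuation_le_one_iff _).1 (hy j).le) (hK _)
  have hpolyO : ∀ f : MvPolynomial (Fin l) K, MvPolynomial.aeval y f ∈ O := by
    intro f
    induction f using MvPolynomial.induction_on with
    | C a => rw [MvPolynomial.aeval_C]; exact hK a
    | add f g hf hg => rw [map_add]; exact O.add_mem _ _ hf hg
    | mul_X f j hf => rw [map_mul, MvPolynomial.aeval_X]; exact O.mul_mem _ _ hf (hyO j)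
  have hpoly : ∀ f : MvPolynomial (Fin l) K,
      O.valuation (MvPolynomial.aeval y f - algebraMap K L (MvPolynomial.eval b f)) < 1 := by
    intro f
    induction f using MvPolynomial.induction_on with
    | C a =>
      rw [MvPolynomial.aeval_C, MvPolynomial.eval_C, sub_self, map_zero]
      exact zero_lt_one
    | add f g hf hg =>
      have h1 : MvPolynomial.aeval y (f + g) - algebraMap K L (MvPolynomial.eval b (f + g))
          = (MvPolynomial.aeval y f - algebraMap K L (MvPolynomial.eval b f))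
            + (MvPolynomial.aeval y g - algebraMap K L (MvPolynomial.eval b g)) := by
        rw [map_add, map_add, map_add]; ring
      rw [h1]
      exact Valuation.map_add_lt _ hf hg
    | mul_X f j hf =>
      have h1 : MvPolynomial.aeval y (f * MvPolynomial.X j)
            - algebraMap K L (MvPolynomial.eval b (f * MvPolynomial.X j))
          = (MvPolynomial.aeval y f - algebraMap K L (MvPolynomial.eval b f)) * y j
            + algebraMap K L (MvPolynomial.eval b f) * (y j - algebraMap K L (b j)) := by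
        rw [map_mul, map_mul, MvPolynomial.aeval_X, MvPolynomial.eval_X, map_mul]; ring
      rw [h1]
      refine Valuation.map_add_lt _ ?_ ?_
      · rw [map_mul]
        exact lt_of_le_of_lt (mul_le_of_le_one_right zero_le
          ((O.valuation_le_one_iff _).2 (hyO j))) hf
      · rw [map_mul]
        exact lt_of_le_of_lt (mul_le_of_le_one_left zero_le
          ((O.valuation_le_one_iff _).2 (hK _))) (hy j)
  obtain ⟨o, hoO, ho⟩ := solvable_in_O p O hK hres A (fun i => MvPolynomial.aeval y (c i))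
    (fun i => hpolyO _) x (fun i => by
      rw [← hx i]
      exact Finset.sum_congr rfl fun j _ => hev x i j)
  choose z hz using fun j => hres (o j) (hoO j)
  refine ⟨z, fun i => ?_⟩
  -- the difference lies in the maximal ideal and in `K`
  have hmax : ∀ (s : K[X]) (y : L), O.valuation y < 1 → O.valuation (ev p s y) < 1 := by
    intro s y hy
    unfold ev Polynomial.sum
    refine Valuation.map_sum_lt _ one_ne_zero fun k _ => ?_
    rw [map_mul, map_pow]
    have h1 : O.valuation (algebraMap K L (s.coeff k)) ≤ 1 := (O.valuation_le_one_iff _).2 (hK _)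
    have h2 : O.valuation y ^ p ^ k < 1 :=
      pow_lt_one₀ zero_le hy (pow_ne_zero _ (Fact.out : p.Prime).ne_zero)
    exact lt_of_le_of_lt (mul_le_of_le_one_left zero_le h1) h2
  have hdiff : O.valuation (algebraMap K L
      (MvPolynomial.eval b (c i) - ∑ j, ∑ k : Fin d, a i j k * z j ^ p ^ (k : ℕ))) < 1 := by
    have h1 : algebraMap K L
        (MvPolynomial.eval b (c i) - ∑ j, ∑ k : Fin d, a i j k * z j ^ p ^ (k : ℕ))
        = -(MvPolynomial.aeval y (c i) - algebraMap K L (MvPolynomial.eval b (c i)))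
          + ∑ j, ev p (A i j) (o j - algebraMap K L (z j)) := by
      have h2 : ∑ j, ev p (A i j) (o j - algebraMap K L (z j))
          = MvPolynomial.aeval y (c i)
            - ∑ j, ∑ k : Fin d, algebraMap K L (a i j k) * (algebraMap K L (z j)) ^ p ^ (k : ℕ) := by
        rw [← ho i, ← Finset.sum_sub_distrib]
        refine Finset.sum_congr rfl fun j _ => ?_
        rw [ev_map_sub, hev (fun j => algebraMap K L (z j)) i j]
      have h3 : algebraMap K L (∑ j, ∑ k : Fin d, a i j k * z j ^ p ^ (k : ℕ))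
          = ∑ j, ∑ k : Fin d, algebraMap K L (a i j k) * (algebraMap K L (z j)) ^ p ^ (k : ℕ) := by
        rw [map_sum]
        refine Finset.sum_congr rfl fun j _ => ?_
        rw [map_sum]
        refine Finset.sum_congr rfl fun k _ => ?_
        rw [map_mul, map_pow]
      rw [h2, map_sub, h3]
      ring
    rw [h1]
    refine Valuation.map_add_lt _ ?_ ?_
    · rw [Valuation.map_neg]; exact hpoly _
    · exact Valuation.map_sum_lt _ one_ne_zero fun j _ => hmax _ _ (hz j)
  have hzero : MvPolynomial.eval b (c i)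
      - ∑ j, ∑ k : Fin d, a i j k * z j ^ p ^ (k : ℕ) = 0 := by
    by_contra hne
    rw [val_const O hK hne] at hdiff
    exact lt_irrefl _ hdiff
  exact (sub_eq_zero.1 hzero).symm

end Pool.Agent.Results.MP_4ed7e0_lc.AdditivePurity
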