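import Mathlib
import Pool.Agent.H895.SkeletonH
import Pool.Agent.H895.Curve

set_option autoImplicit false

namespace Pool.Agent.Results.MP_4ed7e0_lc.ArtinSchreierDegP

open MvPolynomial Pool.Agent.H895

/-- The polynomial `z^p + b z - φ(x)` in the variables `none` (for `z`) and `some i`. -/
noncomputable def asPoly {K : Type} [Field K] (p n : ℕ) (φ : MvPolynomial (Fin n) K) (b : K) :
    MvPolynomial (Option (Fin n)) K :=
  X none ^ p + C b * X none - rename some φ

lemma aeval_asPoly {A : Type*} [CommRing A] {K : Type} [Field K]
    [Algebra K A] (p n : ℕ) (φ : MvPolynomial (Fin n) K) (b : K) (x : Option (Fin n) → A) :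
    aeval x (asPoly p n φ b) = x none ^ p + algebraMap K A b * x none
      - aeval (fun i => x (some i)) φ := by
  unfold asPoly
  rw [map_sub, map_add, map_mul, map_pow, aeval_X, aeval_C, aeval_rename]
  rfl

/-- homogenization of degree `e` with the extra variable `none` -/
noncomputable def hom {K : Type} [Field K] (n e : ℕ) (φ : MvPolynomial (Fin n) K) :
    MvPolynomial (Option (Fin n)) K :=
  ∑ d ∈ Finset.range (e + 1), X none ^ (e - d) * rename some (homogeneousComponent d φ)

lemma hom_isHomogeneous {K : Type} [Field K] (n e : ℕ) (φ : MvPolynomial (Fin n) K) :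
    (hom n e φ).IsHomogeneous e := by
  unfold hom
  refine IsHomogeneous.sum _ _ _ fun d hd => ?_
  have hd' : d ≤ e := Nat.lt_succ_iff.1 (Finset.mem_range.1 hd)
  have h1 : (X none ^ (e - d) : MvPolynomial (Option (Fin n)) K).IsHomogeneous (e - d) :=
    isHomogeneous_X_pow _ _
  have h2 : (rename some (homogeneousComponent d φ) :
      MvPolynomial (Option (Fin n)) K).IsHomogeneous d :=
    (homogeneousComponent_isHomogeneous d φ).rename_isHomogeneous
  have h3 := h1.mul h2
  have h4 : e - d + d = e := by omega
  rw [h4] at h3
  exact h3

lemma sum_comp {K : Type} [Field K] (n e : ℕ) (φ : MvPolynomial (Fin n) K)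
    (he : φ.totalDegree ≤ e) : ∑ d ∈ Finset.range (e + 1), homogeneousComponent d φ = φ := by
  conv_rhs => rw [← sum_homogeneousComponent φ]
  symm
  apply Finset.sum_subset
  · intro d hd
    rw [Finset.mem_range] at *
    omega
  · intro d _ hd
    apply homogeneousComponent_eq_zero
    rw [Finset.mem_range] at hd
    omega

lemma aeval_hom {A : Type*} [CommRing A] {K : Type} [Field K] [Algebra K A] (n e : ℕ)
    (φ : MvPolynomial (Fin n) K) (he : φ.totalDegree ≤ e) (x : Option (Fin n) → A)
    (hx : x none = 1) : aeval x (hom n e φ) = aeval (fun i => x (some i)) φ := by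
  unfold hom
  rw [map_sum]
  conv_rhs => rw [← sum_comp n e φ he, map_sum]
  refine Finset.sum_congr rfl fun d _ => ?_
  rw [map_mul, map_pow, aeval_X, hx, one_pow, one_mul, aeval_rename]
  rfl

/-- homogenization of `z^p + b z - φ` with variables `none` (for `z`), `some none` (the extra
variable) and `some (some i)`. -/
noncomputable def asForm {K : Type} [Field K] (p n : ℕ) (φ : MvPolynomial (Fin n) K) (b : K) :
    MvPolynomial (Option (Option (Fin n))) K :=
  X none ^ p + C b * (X none * X (some none) ^ (p - 1)) - rename some (hom n p φ)

lemma asForm_isHomogeneous {K : Type} [Field K] (p n : ℕ) (hp : 1 ≤ p)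
    (φ : MvPolynomial (Fin n) K) (b : K) : (asForm p n φ b).IsHomogeneous p := by
  unfold asForm
  refine (IsHomogeneous.add (isHomogeneous_X_pow _ _) ?_).sub
    (hom_isHomogeneous n p φ).rename_isHomogeneous
  have h1 : (X none * X (some none) ^ (p - 1) :
      MvPolynomial (Option (Option (Fin n))) K).IsHomogeneous (1 + (p - 1)) :=
    (isHomogeneous_X _ _).mul (isHomogeneous_X_pow _ _)
  have h2 : 1 + (p - 1) = p := by omega
  rw [h2] at h1
  exact h1.C_mul b

lemma aeval_asForm {A : Type*} [CommRing A] {K : Type} [Field K] [Algebra K A] (p n : ℕ)
    (φ : MvPolynomial (Fin n) K) (b : K) (x : Option (Option (Fin n)) → A) :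
    aeval x (asForm p n φ b) = x none ^ p
      + algebraMap K A b * (x none * x (some none) ^ (p - 1))
      - aeval (fun o => x (some o)) (hom n p φ) := by
  unfold asForm
  rw [map_sub, map_add, map_mul, map_mul, map_pow, map_pow, aeval_X, aeval_X, aeval_C,
    aeval_rename]
  rfl

lemma line_mul {K : Type*} [Field K] {σ : Type*} (μ lam : σ → K) (f g : MvPolynomial σ K) :
    line μ lam (f * g) = line μ lam f * line μ lam g := by
  unfold line; rw [map_mul]

/-- Let `K` be a large field of characteristic `p` and `L` an extension field with a
`K`-rational place. Let `φ` and `g` be polynomials over `K` in `n` variables, the total degree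
of `φ` being at most `p` or prime to `p`, and let `b` be in `K`. If the system
`z^p + b z = φ(u)`, `g(u) ≠ 0` has a solution in `L`, then it has a solution in `K`. -/
theorem result (p : ℕ) [Fact p.Prime] (K : Type) [Field K] [CharP K p]
    (hlarge : ∀ (n : ℕ) (S : Finset (MvPolynomial (Fin n) K)),
      (∃ x : Fin n → LaurentSeries K, ∀ q ∈ S, MvPolynomial.aeval x q = 0) →
      ∃ x : Fin n → K, ∀ q ∈ S, MvPolynomial.eval x q = 0)
    (L : Type) [Field L] [Algebra K L]
    (hplace : ∃ O : ValuationSubring L, (∀ a : K, algebraMap K L a ∈ O) ∧
        ∀ x ∈ O, ∃ a : K, O.valuation (x - algebraMap K L a) < 1)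
    (n : ℕ) (φ g : MvPolynomial (Fin n) K) (hφ : φ.totalDegree ≤ p ∨ ¬ p ∣ φ.totalDegree)
    (b : K)
    (h : ∃ (z : L) (u : Fin n → L), z ^ p + algebraMap K L b * z = MvPolynomial.aeval u φ ∧
      MvPolynomial.aeval u g ≠ 0) :
    ∃ (z : K) (u : Fin n → K), z ^ p + b * z = MvPolynomial.eval u φ ∧
      MvPolynomial.eval u g ≠ 0 := by
  classical
  have hp : 1 < p := (Fact.out : p.Prime).one_lt
  have hinf : Infinite K := infinite_of_large K hlarge
  have hcharL : CharP (LaurentSeries K) p :=
    charP_of_injective_algebraMap (algebraMap K (LaurentSeries K)).injective p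
  obtain ⟨O, hK, hres⟩ := hplace
  obtain ⟨zL, u, hzu, hgu⟩ := h
  have hg0 : g ≠ 0 := by
    intro h0; apply hgu; rw [h0, map_zero]
  -- the polynomials `P_c = X^p + c X`
  have hPdeg : ∀ c : K, (Polynomial.X ^ p + Polynomial.C c * Polynomial.X :
      Polynomial K).natDegree = p := by
    intro c
    have h1 : (Polynomial.C c * Polynomial.X : Polynomial K).natDegree < p :=
      lt_of_le_of_lt (le_trans (Polynomial.natDegree_C_mul_le _ _) Polynomial.natDegree_X_le) hp
    rw [Polynomial.natDegree_add_eq_left_of_natDegree_lt]
    · exact Polynomial.natDegree_X_pow p
    · rw [Polynomial.natDegree_X_pow]; exact h1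
  have hcurve : ∀ (c : K) (f : Polynomial K), 0 < f.natDegree → ¬ p ∣ f.natDegree →
      ∃ ζ T : LaurentSeries K, ζ ^ p + algebraMap K (LaurentSeries K) c * ζ
        = Polynomial.aeval T f ∧ ∀ q : Polynomial K, q ≠ 0 → Polynomial.aeval T q ≠ 0 := by
    intro c f hf0 hf
    obtain ⟨ζ, T, h1, h2⟩ := curve_point_aux K
      (Polynomial.X ^ p + Polynomial.C c * Polynomial.X) f p f.natDegree (hPdeg c) rfl
      (by omega) hf0 ((Nat.Prime.coprime_iff_not_dvd (Fact.out : p.Prime)).2 hf) (by
        rw [Ne, CharP.cast_eq_zero_iff K p]; exact hf)
    refine ⟨ζ, T, ?_, h2⟩
    rw [← h1]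
    simp
  -- it suffices to find a point in the Laurent series field
  suffices hsuff : (∃ x : Option (Fin n) → LaurentSeries K,
      aeval x (asPoly p n φ b) = 0 ∧ aeval x (rename some g) ≠ 0) ∨
      (∃ x : Option (Fin n) → K, eval x (asPoly p n φ b) = 0 ∧ eval x (rename some g) ≠ 0) by
    obtain ⟨x, hx, hxg⟩ : ∃ x : Option (Fin n) → K,
        eval x (asPoly p n φ b) = 0 ∧ eval x (rename some g) ≠ 0 := by
      rcases hsuff with h1 | h1
      · exact large_transfer2 K hlarge _ _ h1
      · exact h1
    refine ⟨x none, fun i => x (some i), ?_, ?_⟩
    · have h1 := aeval_asPoly (A := K) p n φ b x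
      rw [← MvPolynomial.aeval_eq_eval] at hx
      have h2 : aeval x (asPoly p n φ b) = 0 := hx
      rw [h2] at h1
      have h3 := (sub_eq_zero.1 h1.symm)
      rw [Algebra.algebraMap_self_apply] at h3
      rw [h3, ← MvPolynomial.aeval_eq_eval]
    · rw [eval_rename] at hxg
      exact hxg
  by_cases hD : φ.totalDegree ≤ p
  · -- degree at most `p`
    set e := g.totalDegree with he
    set F := asForm p n φ b with hF
    set G₀ : MvPolynomial (Option (Fin n)) K := X none * hom n e g with hG₀
    set G : MvPolynomial (Option (Option (Fin n))) K := rename some G₀ with hG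
    have hG₀hom : G₀.IsHomogeneous (1 + e) := (isHomogeneous_X _ _).mul (hom_isHomogeneous n e g)
    set w : Option (Option (Fin n)) → L := fun o => o.elim zL (fun o' => o'.elim 1 u) with hw
    have hwF : aeval w F = 0 := by
      rw [hF, aeval_asForm, aeval_hom n p φ hD _ rfl]
      show zL ^ p + algebraMap K L b * (zL * 1 ^ (p - 1)) - aeval u φ = 0
      rw [one_pow, mul_one, hzu, sub_self]
    have hwG : aeval w G ≠ 0 := by
      rw [hG, aeval_rename, hG₀, map_mul, aeval_X, aeval_hom n e g le_rfl _ rfl]
      show 1 * aeval u g ≠ 0
      rw [one_mul]
      exact hgu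
    -- passing from a zero of the form to an affine zero
    have haffine : ∀ (A : Type) [Field A] [Algebra K A] (x : Option (Option (Fin n)) → A),
        aeval x F = 0 → aeval x G ≠ 0 → ∃ y : Option (Fin n) → A,
          aeval y (asPoly p n φ b) = 0 ∧ aeval y (rename some g) ≠ 0 := by
      intro A _ _ x hx hxG
      set s := x (some none) with hs
      have hs0 : s ≠ 0 := by
        intro h0
        apply hxG
        rw [hG, aeval_rename, hG₀, map_mul, aeval_X]
        show x (some none) * _ = 0
        rw [← hs, h0, zero_mul]
      have hx1 : (fun o => s * (x o / s)) = x := by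
        funext o; rw [mul_div_cancel₀ _ hs0]
      have h1 : aeval (fun o => x o / s) F = 0 := by
        have h2 := aeval_scale F p (asForm_isHomogeneous p n hp.le φ b) s (fun o => x o / s)
        rw [hx1, hx] at h2
        rcases mul_eq_zero.1 h2.symm with h3 | h3
        · exact absurd h3 (pow_ne_zero _ hs0)
        · exact h3
      have h2 : aeval (fun o => x o / s) G ≠ 0 := by
        intro h3
        apply hxG
        have h4 := aeval_scale G (1 + e) (hG₀hom.rename_isHomogeneous) s (fun o => x o / s)
        rw [hx1, h3, mul_zero] at h4
        exact h4
      refine ⟨fun o => o.elim (x none / s) (fun i => x (some (some i)) / s), ?_, ?_⟩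
      · rw [aeval_asPoly]
        rw [hF, aeval_asForm, aeval_hom n p φ hD _ (by
          show x (some none) / s = 1
          rw [← hs, div_self hs0])] at h1
        have h3 : x (some none) / s = 1 := by rw [← hs, div_self hs0]
        rw [h3, one_pow, mul_one] at h1
        exact h1
      · rw [aeval_rename]
        rw [hG, aeval_rename, hG₀, map_mul, aeval_hom n e g le_rfl _ (by
          show x (some none) / s = 1
          rw [← hs, div_self hs0])] at h2
        exact (mul_ne_zero_iff.1 h2).2
    rcases skeletonH O hK hres F p (asForm_isHomogeneous p n hp.le φ b) _ G w le_rfl hwF hwG with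
      ⟨x, hxF, hxG⟩ | ⟨lam, hlamF, μ₀, s₀, hμs⟩
    · right
      have h1 := haffine K x (by rw [MvPolynomial.aeval_eq_eval]; exact hxF)
        (by rw [MvPolynomial.aeval_eq_eval]; exact hxG)
      obtain ⟨y, hy1, hy2⟩ := h1
      rw [MvPolynomial.aeval_eq_eval] at hy1 hy2
      exact ⟨y, hy1, hy2⟩
    · left
      by_cases hb : b = 0 ∨ lam (some none) = 0
      · -- directions at infinity, or the inseparable case
        -- choose a good base point
        have hGne : G ≠ 0 := by
          intro h0; apply hwG; rw [h0, map_zero]
        set Q : MvPolynomial (Option (Option (Fin n))) K :=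
          translate (fun i => lam i * s₀) F - F with hQ
        have hevQ : ∀ μ : Option (Option (Fin n)) → K,
            eval μ Q = eval (fun i => μ i + lam i * s₀) F - eval μ F := by
          intro μ
          rw [hQ, map_sub]
          have h2 := aeval_translate (A := K) (fun i => lam i * s₀) F μ
          rw [MvPolynomial.aeval_eq_eval, MvPolynomial.aeval_eq_eval] at h2
          have h3 : eval μ (translate (fun i => lam i * s₀) F)
            = eval (fun i => μ i + lam i * s₀) F := h2
          rw [h3]
        have hQne : Q ≠ 0 := by
          intro h0
          apply hμs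
          have h1 := hevQ μ₀
          rw [h0, map_zero] at h1
          exact (sub_eq_zero.1 h1.symm)
        obtain ⟨μ, hμ⟩ : ∃ μ : Option (Option (Fin n)) → K, eval μ (G * Q) ≠ 0 := by
          by_contra hcon
          push Not at hcon
          have h1 : G * Q = 0 := by
            apply MvPolynomial.funext
            intro x
            rw [hcon x, map_zero]
          exact (mul_ne_zero hGne hQne) h1
        rw [map_mul] at hμ
        have hμG : eval μ G ≠ 0 := (mul_ne_zero_iff.1 hμ).1
        have hμQ : eval (fun i => μ i + lam i * s₀) F ≠ eval μ F := by
          have h1 := (mul_ne_zero_iff.1 hμ).2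
          rw [hevQ] at h1
          exact sub_ne_zero.1 h1
        set f := line μ lam F with hf
        have hlc := line_natDegree_coeff μ lam F p
          (asForm_isHomogeneous p n hp.le φ b).totalDegree_le
        have hFcomp : homogeneousComponent p F = F :=
          homogeneousComponent_eq_self (asForm_isHomogeneous p n hp.le φ b)
        have hpos : 0 < f.natDegree := by
          by_contra h0
          have h0' : (line μ lam F).natDegree = 0 := Nat.le_zero.1 (not_lt.1 h0)
          apply hμQ
          have e1 := eval_line (A := K) μ lam F s₀
          have e2 := eval_line (A := K) μ lam F 0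
          rw [Polynomial.eq_C_of_natDegree_eq_zero h0'] at e1 e2
          rw [Polynomial.aeval_C] at e1 e2
          rw [e1] at e2
          simp only [mul_zero, add_zero] at e2
          exact e2
        have hlt : f.natDegree < p := by
          refine lt_of_le_of_ne hlc.1 ?_
          intro h0
          have h1 : (line μ lam F).coeff (line μ lam F).natDegree = 0 := by
            rw [h0, hlc.2, hFcomp, hlamF]
          have h2 : line μ lam F = 0 := Polynomial.leadingCoeff_eq_zero.1 h1
          rw [hf, h2] at hpos
          simp at hpos
        set c : K := b * μ (some none) ^ (p - 1) with hc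
        obtain ⟨ζ, T, hζT, hT⟩ := hcurve c (-f) (by rw [Polynomial.natDegree_neg]; exact hpos)
          (by
            rw [Polynomial.natDegree_neg]
            exact fun hdvd => absurd (Nat.le_of_dvd hpos hdvd) (not_le.2 hlt))
        set x : Option (Option (Fin n)) → LaurentSeries K := fun o =>
          algebraMap K (LaurentSeries K) (μ o)
            + algebraMap K (LaurentSeries K) (lam o) * T + (if o = none then ζ else 0) with hx
        have hxsome : ∀ o, x (some o) = algebraMap K (LaurentSeries K) (μ (some o))
            + algebraMap K (LaurentSeries K) (lam (some o)) * T := by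
          intro o
          rw [hx]
          simp
        have hxnone : x none = algebraMap K (LaurentSeries K) (μ none)
            + algebraMap K (LaurentSeries K) (lam none) * T + ζ := by
          rw [hx]
          simp
        refine haffine (LaurentSeries K) x ?_ ?_
        · have h3 := eval_line (A := LaurentSeries K) μ lam F T
          rw [hF, aeval_asForm] at h3
          rw [hF, aeval_asForm, hxnone]
          have h4 : (fun o => x (some o)) = fun o => algebraMap K (LaurentSeries K) (μ (some o))
              + algebraMap K (LaurentSeries K) (lam (some o)) * T := funext hxsome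
          rw [h4, hxsome none, add_pow_char]
          have h5 : algebraMap K (LaurentSeries K) b
              * (ζ * (algebraMap K (LaurentSeries K) (μ (some none))
                + algebraMap K (LaurentSeries K) (lam (some none)) * T) ^ (p - 1))
              = algebraMap K (LaurentSeries K) c * ζ := by
            rcases hb with hb | hb
            · rw [hc, hb]; simp
            · rw [hb, map_zero, zero_mul, add_zero, hc, map_mul, map_pow]; ring
          have h6 : ζ ^ p + algebraMap K (LaurentSeries K) c * ζ = -Polynomial.aeval T f := by
            rw [hζT, map_neg]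
          rw [← h5] at h6
          rw [hf, hF, h3] at h6
          linear_combination h6
        · have h7 := eval_line (A := LaurentSeries K) μ lam G T
          have h8 : aeval x G = Polynomial.aeval T (line μ lam G) := by
            rw [h7, hG, aeval_rename, aeval_rename]
            congr 1
            congr 1
            funext o
            exact hxsome o
          rw [h8]
          apply hT
          intro h0
          apply hμG
          have e2 := eval_line (A := K) μ lam G 0
          rw [h0, map_zero] at e2
          simp only [mul_zero, add_zero] at e2
          rw [MvPolynomial.aeval_eq_eval] at e2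
          exact e2.symm
      · -- a smooth affine `K`-point
        push Not at hb
        obtain ⟨hb0, hl0⟩ := hb
        obtain ⟨z₁, x₁, hzx⟩ : ∃ (z₁ : K) (x₁ : Fin n → K), z₁ ^ p + b * z₁ = eval x₁ φ := by
          have hx1 : (fun o => lam (some none) * (lam o / lam (some none))) = lam := by
            funext o; rw [mul_div_cancel₀ _ hl0]
          have h1 : aeval (fun o => lam o / lam (some none)) F = 0 := by
            have h2 := aeval_scale F p (asForm_isHomogeneous p n hp.le φ b) (lam (some none))
              (fun o => lam o / lam (some none))
            rw [hx1, MvPolynomial.aeval_eq_eval] at h2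
            have h2' : eval lam F = lam (some none) ^ p
              * aeval (fun o => lam o / lam (some none)) F := h2
            rw [hlamF] at h2'
            rcases mul_eq_zero.1 h2'.symm with h3 | h3
            · exact absurd h3 (pow_ne_zero _ hl0)
            · exact h3
          refine ⟨lam none / lam (some none),
            fun i => lam (some (some i)) / lam (some none), ?_⟩
          have h3 : lam (some none) / lam (some none) = 1 := div_self hl0
          rw [hF, aeval_asForm, aeval_hom n p φ hD _ h3, h3, one_pow, mul_one,
            Algebra.algebraMap_self_apply] at h1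
          rw [sub_eq_zero.1 h1, MvPolynomial.aeval_eq_eval]
        -- a direction along which `g` does not vanish identically
        obtain ⟨κ, hκ⟩ : ∃ κ : Fin n → K, eval κ g ≠ 0 := by
          by_contra hcon
          push Not at hcon
          apply hg0
          apply MvPolynomial.funext
          intro x
          rw [hcon x, map_zero]
        set ν : Fin n → K := fun i => κ i - x₁ i with hν
        set f := line x₁ ν φ with hf
        -- Hensel
        set fX : PowerSeries K := Polynomial.aeval (PowerSeries.X : PowerSeries K) f with hfX
        set H : Polynomial (PowerSeries K) := Polynomial.X ^ p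
          + Polynomial.C (PowerSeries.C b) * Polynomial.X
          - Polynomial.C (fX - PowerSeries.C (eval x₁ φ)) with hH
        have hfX0 : PowerSeries.constantCoeff fX = eval x₁ φ := by
          have e2 := eval_line (A := K) x₁ ν φ 0
          simp only [mul_zero, add_zero] at e2
          rw [MvPolynomial.aeval_eq_eval] at e2
          have e3 : Polynomial.aeval (0 : K) (line x₁ ν φ) = eval x₁ φ := e2
          rw [hfX, ← e3, ← hf]
          have e4 : ∀ q : Polynomial K, PowerSeries.constantCoeff
              (Polynomial.aeval (PowerSeries.X : PowerSeries K) q)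
              = Polynomial.aeval (0 : K) q := by
            intro q
            induction q using Polynomial.induction_on' with
            | add a b ha hb => simp only [map_add, ha, hb]
            | monomial m a =>
              rw [← Polynomial.C_mul_X_pow_eq_monomial]
              simp only [map_mul, map_pow, Polynomial.aeval_C, Polynomial.aeval_X,
                PowerSeries.constantCoeff_X, Algebra.algebraMap_self_apply]
              congr 1
          exact e4 f
        obtain ⟨ζ, hζ, -⟩ := hensel_powerSeries H 0 (by
            rw [hH]
            simp only [Polynomial.eval_sub, Polynomial.eval_add, Polynomial.eval_pow,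
              Polynomial.eval_X, Polynomial.eval_mul, Polynomial.eval_C]
            rw [zero_pow (by omega), mul_zero, add_zero, zero_sub, map_neg, map_sub, hfX0,
              PowerSeries.constantCoeff_C, sub_self, neg_zero]) (by
            rw [hH]
            simp only [Polynomial.derivative_sub, Polynomial.derivative_add,
              Polynomial.derivative_X_pow, Polynomial.derivative_C_mul,
              Polynomial.derivative_X, Polynomial.derivative_C, Polynomial.eval_sub,
              Polynomial.eval_add, Polynomial.eval_mul, Polynomial.eval_C, Polynomial.eval_one,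
              Polynomial.eval_zero, Polynomial.eval_pow, Polynomial.eval_X]
            rw [zero_pow (by omega), mul_zero, zero_add, mul_one, sub_zero,
              PowerSeries.constantCoeff_C]
            exact hb0)
        rw [hH] at hζ
        simp only [Polynomial.eval_sub, Polynomial.eval_add, Polynomial.eval_pow,
              Polynomial.eval_X, Polynomial.eval_mul, Polynomial.eval_C] at hζ
        set ι : PowerSeries K →+* LaurentSeries K := HahnSeries.ofPowerSeries ℤ K with hι
        have hιf : ι fX = Polynomial.aeval (ι PowerSeries.X) f := by
          rw [hfX]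
          have e4 : ∀ q : Polynomial K, ι (Polynomial.aeval (PowerSeries.X : PowerSeries K) q)
              = Polynomial.aeval (ι PowerSeries.X) q := by
            intro q
            induction q using Polynomial.induction_on' with
            | add a b ha hb => simp only [map_add, ha, hb]
            | monomial m a =>
              rw [← Polynomial.C_mul_X_pow_eq_monomial]
              simp only [map_mul, map_pow, Polynomial.aeval_C, Polynomial.aeval_X]
              congr 1
          exact e4 f
        refine ⟨fun o => o.elim (algebraMap K (LaurentSeries K) z₁ + ι ζ)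
          (fun i => algebraMap K (LaurentSeries K) (x₁ i)
            + algebraMap K (LaurentSeries K) (ν i) * ι PowerSeries.X), ?_, ?_⟩
        · rw [aeval_asPoly]
          simp only [Option.elim_none, Option.elim_some]
          rw [← eval_line (A := LaurentSeries K) x₁ ν φ (ι PowerSeries.X), ← hf, ← hιf,
            add_pow_char]
          have h1 := congrArg ι hζ
          rw [map_sub, map_add, map_mul, map_pow, map_sub, map_zero, hι, ofPowerSeries_C_eq,
            ofPowerSeries_C_eq, ← hι] at h1
          have h2 := congrArg (algebraMap K (LaurentSeries K)) hzx
          rw [map_add, map_mul, map_pow] at h2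
          linear_combination h1 + h2
        · rw [aeval_rename]
          have h1 : aeval ((fun o : Option (Fin n) =>
              o.elim (algebraMap K (LaurentSeries K) z₁ + ι ζ)
              (fun i => algebraMap K (LaurentSeries K) (x₁ i)
                + algebraMap K (LaurentSeries K) (ν i) * ι PowerSeries.X)) ∘ some) g
              = Polynomial.aeval (ι PowerSeries.X) (line x₁ ν g) := by
            rw [eval_line]
            rfl
          rw [h1]
          apply H895.transcendental_X
          intro h0
          apply hκ
          have e2 := eval_line (A := K) x₁ ν g 1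
          rw [h0, map_zero] at e2
          have e3 : (fun i => algebraMap K K (x₁ i) + algebraMap K K (ν i) * 1) = κ := by
            funext i
            rw [Algebra.algebraMap_self_apply, Algebra.algebraMap_self_apply, mul_one, hν]
            ring
          rw [e3, MvPolynomial.aeval_eq_eval] at e2
          exact e2.symm
  · -- degree prime to `p`
    left
    have hndvd : ¬ p ∣ φ.totalDegree := hφ.resolve_left hD
    set D := φ.totalDegree with hDdef
    have hcomp : homogeneousComponent D φ ≠ 0 := by
      intro h0
      have hφ0 : φ ≠ 0 := by
        intro h1
        apply hndvd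
        rw [hDdef, h1, totalDegree_zero]
        exact dvd_zero p
      obtain ⟨d, hd, hd'⟩ := Finset.exists_mem_eq_sup φ.support
        (MvPolynomial.support_nonempty.2 hφ0) (fun s => s.degree)
      have h1 : coeff d (homogeneousComponent D φ) = coeff d φ := by
        rw [coeff_homogeneousComponent, if_pos]
        rw [hDdef, ← hd']
        rfl
      rw [h0, coeff_zero] at h1
      exact (mem_support_iff.1 hd) h1.symm
    obtain ⟨lam, hlam⟩ : ∃ lam : Fin n → K, eval lam (homogeneousComponent D φ) ≠ 0 := by
      by_contra hcon
      push Not at hcon
      apply hcomp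
      apply MvPolynomial.funext
      intro x
      rw [hcon x, map_zero]
    obtain ⟨μ, hμ⟩ : ∃ μ : Fin n → K, eval μ g ≠ 0 := by
      by_contra hcon
      push Not at hcon
      apply hg0
      apply MvPolynomial.funext
      intro x
      rw [hcon x, map_zero]
    set f := line μ lam φ with hf
    have hline := line_natDegree_coeff μ lam φ D le_rfl
    have hfdeg : f.natDegree = D := by
      refine le_antisymm hline.1 (Polynomial.le_natDegree_of_ne_zero ?_)
      rw [hf, hline.2]
      exact hlam
    have hDpos : 0 < D := by
      rcases Nat.eq_zero_or_pos D with h0 | h0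
      · exfalso; apply hndvd; rw [h0]; exact dvd_zero p
      · exact h0
    obtain ⟨ζ, T, hζT, hT⟩ := hcurve b f (by rw [hfdeg]; exact hDpos) (by rw [hfdeg]; exact hndvd)
    refine ⟨fun o => o.elim ζ (fun i => algebraMap K (LaurentSeries K) (μ i)
      + algebraMap K (LaurentSeries K) (lam i) * T), ?_, ?_⟩
    · rw [aeval_asPoly]
      simp only [Option.elim_none, Option.elim_some]
      rw [hζT, hf, eval_line, sub_self]
    · rw [aeval_rename]
      have h1 : aeval ((fun o : Option (Fin n) => o.elim ζ
          (fun i => algebraMap K (LaurentSeries K) (μ i)
            + algebraMap K (LaurentSeries K) (lam i) * T)) ∘ some) g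
          = Polynomial.aeval T (line μ lam g) := by
        rw [eval_line]
        rfl
      rw [h1]
      apply hT
      intro h0
      apply hμ
      have e2 := eval_line (A := K) μ lam g 0
      rw [h0, map_zero] at e2
      simp only [mul_zero, add_zero] at e2
      rw [MvPolynomial.aeval_eq_eval] at e2
      exact e2.symm

end Pool.Agent.Results.MP_4ed7e0_lc.ArtinSchreierDegP
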